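import Mathlib

open Matrix Finset
open scoped Kronecker ComplexOrder

namespace Pool.Agent.R299.Maj

/-! ### Real lemmas -/

lemma abel_aux : ∀ (N : ℕ) (a z : Fin N → ℝ), Antitone a →
    (∀ I : ℕ, 0 ≤ ∑ j : Fin N, if (j : ℕ) < I then z j else 0) →
    ∀ c : ℝ, (∀ j, c ≤ a j) → c * ∑ j, z j ≤ ∑ j, a j * z j
  | 0, a, z, _, _, c, _ => by simp
  | N + 1, a, z, ha, hz, c, hc => by
      have hz' : ∀ I : ℕ, 0 ≤ ∑ j : Fin N, if (j : ℕ) < I then z j.castSucc else 0 := by
        intro I
        have h := hz (min I N)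
        rw [Fin.sum_univ_castSucc] at h
        simp only [Fin.val_castSucc, Fin.val_last, lt_min_iff, lt_irrefl, and_false, if_false,
          add_zero, Fin.is_lt, and_true] at h
        exact h
      have ih := abel_aux N (fun j => a j.castSucc) (fun j => z j.castSucc)
        (fun i j hij => ha (by simpa using hij)) hz' (a (Fin.last N))
        (fun j => ha (Fin.le_last _))
      have h0 : 0 ≤ ∑ j, z j := by
        have h := hz (N + 1)
        simp only [Fin.is_lt, if_true] at h
        exact h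
      have h1 : c * ∑ j, z j ≤ a (Fin.last N) * ∑ j, z j :=
        mul_le_mul_of_nonneg_right (hc _) h0
      refine h1.trans ?_
      rw [Fin.sum_univ_castSucc, Fin.sum_univ_castSucc (f := fun j => a j * z j), mul_add]
      linarith

lemma abel {N : ℕ} (a x y : Fin N → ℝ) (ha : Antitone a) (h0 : ∀ j, 0 ≤ a j)
    (h : ∀ I : ℕ, (∑ j : Fin N, if (j : ℕ) < I then x j else 0) ≤
      ∑ j : Fin N, if (j : ℕ) < I then y j else 0) :
    ∑ j, a j * x j ≤ ∑ j, a j * y j := by
  have := abel_aux N a (fun j => y j - x j) ha (fun I => by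
    have h2 := h I
    have h3 : (∑ j : Fin N, if (j : ℕ) < I then y j - x j else 0) =
        (∑ j : Fin N, if (j : ℕ) < I then y j else 0) -
          ∑ j : Fin N, if (j : ℕ) < I then x j else 0 := by
      rw [← Finset.sum_sub_distrib]
      exact Finset.sum_congr rfl fun j _ => by split_ifs <;> simp
    rw [h3]
    linarith) 0 h0
  simp only [mul_sub, Finset.sum_sub_distrib] at this
  linarith

lemma card_lt {N t : ℕ} (h : t ≤ N) :
    (∑ j : Fin N, if (j : ℕ) < t then (1 : ℝ) else 0) = t := by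
  rw [Fin.sum_univ_eq_sum_range (fun j : ℕ => if j < t then (1 : ℝ) else 0) N]
  rw [← Finset.sum_filter]
  have : (Finset.range N).filter (fun j => j < t) = Finset.range t := by
    ext j
    simp only [Finset.mem_filter, Finset.mem_range]
    omega
  rw [this]
  simp

lemma weights {N : ℕ} (x w : Fin N → ℝ) (hx : Antitone x) (hx0 : ∀ j, 0 ≤ x j)
    (hw0 : ∀ j, 0 ≤ w j) (hw1 : ∀ j, w j ≤ 1) (t : ℕ) (hs : ∑ j, w j ≤ t) :
    ∑ j, x j * w j ≤ ∑ j : Fin N, if (j : ℕ) < t then x j else 0 := by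
  have h := abel x w (fun j => if (j : ℕ) < t then 1 else 0) hx hx0 (fun I => by
    rcases le_or_gt I t with hI | hI
    · refine Finset.sum_le_sum fun j _ => ?_
      split_ifs with h1 h2
      · exact hw1 j
      · omega
      · exact le_rfl
    · rcases le_or_gt t N with hN | hN
      · have h1 : (∑ j : Fin N, if (j : ℕ) < I then w j else 0) ≤ t := by
          refine le_trans (Finset.sum_le_sum fun j _ => ?_) hs
          split_ifs
          · exact le_rfl
          · exact hw0 j
        refine h1.trans ?_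
        rw [← card_lt hN]
        refine Finset.sum_le_sum fun j _ => ?_
        split_ifs with h2 h3
        all_goals first | exact le_rfl | omega | exact zero_le_one
      · refine Finset.sum_le_sum fun j _ => ?_
        split_ifs with h2 h3
        · exact hw1 j
        · exact absurd (lt_trans j.2 hN) h3
        · exact le_rfl)
  refine h.trans (le_of_eq ?_)
  exact Finset.sum_congr rfl fun j _ => by split_ifs <;> simp

/-! ### Spectral decompositions -/

variable {n : Type*} [Fintype n] [DecidableEq n]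

/-- X = U diag(x) Uᴴ with U unitary and x non-increasing. -/
structure Dec {N : ℕ} (X : Matrix n n ℂ) (x : Fin N → ℝ) (U : Matrix n (Fin N) ℂ) : Prop where
  anti : Antitone x
  left : Uᴴ * U = 1
  right : U * Uᴴ = 1
  eq : X = U * diagonal (fun j => (x j : ℂ)) * Uᴴ

lemma exists_dec {X : Matrix n n ℂ} (hX : X.IsHermitian) {N : ℕ} (hN : Fintype.card n = N) :
    ∃ U : Matrix n (Fin N) ℂ, Dec X (fun j => hX.eigenvalues₀ (Fin.cast hN.symm j)) U := by
  subst hN
  let e : Fin (Fintype.card n) ≃ n := Fintype.equivOfCardEq (Fintype.card_fin _)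
  let V : Matrix n n ℂ := (hX.eigenvectorUnitary : Matrix n n ℂ)
  have hV1 : Vᴴ * V = 1 := Unitary.coe_star_mul_self hX.eigenvectorUnitary
  have hV2 : V * Vᴴ = 1 := Unitary.coe_mul_star_self hX.eigenvectorUnitary
  have hsp : X = V * diagonal (RCLike.ofReal ∘ hX.eigenvalues) * Vᴴ := by
    have := hX.spectral_theorem
    rw [Unitary.conjStarAlgAut_apply] at this
    exact this
  refine ⟨V.submatrix id e, ⟨?_, ?_, ?_, ?_⟩⟩
  · intro i j hij
    exact hX.eigenvalues₀_antitone hij
  · rw [conjTranspose_submatrix, ← submatrix_mul _ _ _ _ _ Function.bijective_id, hV1]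
    simp
  · rw [conjTranspose_submatrix, ← submatrix_mul _ _ _ _ _ e.bijective, hV2]
    simp
  · rw [conjTranspose_submatrix]
    have hd : diagonal (fun j => (hX.eigenvalues₀ (Fin.cast rfl j) : ℂ)) =
        (diagonal (RCLike.ofReal ∘ hX.eigenvalues) : Matrix n n ℂ).submatrix e e := by
      rw [submatrix_diagonal _ _ e.injective]
      congr 1
      funext j
      simp [IsHermitian.eigenvalues, e]
    rw [hd, ← submatrix_mul _ _ _ _ _ e.bijective, ← submatrix_mul _ _ _ _ _ e.bijective, ← hsp]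
    simp

namespace Dec

variable {N : ℕ} {X Y : Matrix n n ℂ} {x y : Fin N → ℝ} {U V : Matrix n (Fin N) ℂ}

lemma conj_eq (h : Dec X x U) : Uᴴ * X * U = diagonal (fun j => (x j : ℂ)) := by
  rw [h.eq]
  calc Uᴴ * (U * diagonal (fun j => (x j : ℂ)) * Uᴴ) * U
      = (Uᴴ * U) * diagonal (fun j => (x j : ℂ)) * (Uᴴ * U) := by
        simp only [Matrix.mul_assoc]
    _ = _ := by rw [h.left]; simp

lemma nonneg (h : Dec X x U) (hX : X.PosSemidef) (j : Fin N) : 0 ≤ x j := by
  have h1 := hX.conjTranspose_mul_mul_same U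
  rw [h.conj_eq] at h1
  have h2 := h1.diag_nonneg (i := j)
  simpa using h2

lemma trace_eq (h : Dec X x U) : X.trace = ∑ j, (x j : ℂ) := by
  rw [h.eq, Matrix.trace_mul_comm, ← Matrix.mul_assoc, h.left, Matrix.one_mul]
  simp [Matrix.trace]

/-- Trace against X in the eigenbasis. -/
lemma trace_mul (h : Dec X x U) (S : Matrix n n ℂ) :
    (S * X).trace.re = ∑ j, x j * ((Uᴴ * S * U) j j).re := by
  have h1 : (S * X).trace = ((Uᴴ * S * U) * diagonal (fun j => (x j : ℂ))).trace := by
    rw [h.eq]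
    calc (S * (U * diagonal (fun j => (x j : ℂ)) * Uᴴ)).trace
        = ((S * U * diagonal (fun j => (x j : ℂ))) * Uᴴ).trace := by
          simp only [Matrix.mul_assoc]
      _ = (Uᴴ * (S * U * diagonal (fun j => (x j : ℂ)))).trace := Matrix.trace_mul_comm _ _
      _ = _ := by simp only [Matrix.mul_assoc]
  rw [h1]
  simp only [Matrix.trace, Matrix.diag, Matrix.mul_diagonal, Complex.re_sum]
  refine Finset.sum_congr rfl fun j _ => ?_
  rw [Complex.mul_re]
  simp [mul_comm]

lemma diag_nonneg {S : Matrix n n ℂ} (hS : S.PosSemidef) (U : Matrix n (Fin N) ℂ) (j : Fin N) :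
    0 ≤ ((Uᴴ * S * U) j j).re :=
  (Complex.le_def.1 ((hS.conjTranspose_mul_mul_same U).diag_nonneg (i := j))).1

lemma diag_le_one {S : Matrix n n ℂ} (hS : (1 - S).PosSemidef) (hU : Uᴴ * U = 1) (j : Fin N) :
    ((Uᴴ * S * U) j j).re ≤ 1 := by
  have h := diag_nonneg hS U j
  rw [Matrix.mul_sub, Matrix.sub_mul, Matrix.mul_one, hU, Matrix.sub_apply, Matrix.one_apply_eq,
    Complex.sub_re, Complex.one_re] at h
  linarith

/-- Ky Fan's bound. -/
lemma kyFan (h : Dec X x U) (hX : X.PosSemidef) {S : Matrix n n ℂ} (hS : S.PosSemidef)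
    (hS1 : (1 - S).PosSemidef) (t : ℕ) (ht : S.trace.re ≤ t) :
    (S * X).trace.re ≤ ∑ j : Fin N, if (j : ℕ) < t then x j else 0 := by
  rw [h.trace_mul]
  refine weights x _ h.anti (h.nonneg hX) (fun j => diag_nonneg hS U j)
    (fun j => diag_le_one hS1 h.left j) t ?_
  refine le_trans (le_of_eq ?_) ht
  have : (Uᴴ * S * U).trace = S.trace := by
    rw [Matrix.mul_assoc, Matrix.trace_mul_comm, Matrix.mul_assoc, h.right, Matrix.mul_one]
  rw [← this]
  simp [Matrix.trace]

/-- The projection on the first `t` columns of U. -/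
noncomputable def proj (U : Matrix n (Fin N) ℂ) (t : ℕ) : Matrix n n ℂ :=
  U * diagonal (fun j : Fin N => if (j : ℕ) < t then (1 : ℂ) else 0) * Uᴴ

lemma proj_psd (U : Matrix n (Fin N) ℂ) (t : ℕ) : (proj U t).PosSemidef := by
  refine PosSemidef.mul_mul_conjTranspose_same ?_ U
  rw [Matrix.posSemidef_diagonal_iff]
  intro i
  split_ifs <;> simp

lemma one_sub_proj (hU : U * Uᴴ = 1) (t : ℕ) : (1 - proj U t).PosSemidef := by
  have h1 : 1 - proj U t =
      U * diagonal (fun j : Fin N => if (j : ℕ) < t then (0 : ℂ) else 1) * Uᴴ := by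
    have h2 : diagonal (fun j : Fin N => if (j : ℕ) < t then (0 : ℂ) else 1) =
        1 - diagonal (fun j : Fin N => if (j : ℕ) < t then (1 : ℂ) else 0) := by
      rw [← Matrix.diagonal_one, Matrix.diagonal_sub]
      congr 1
      funext j
      split_ifs <;> simp
    rw [h2, Matrix.mul_sub, Matrix.sub_mul, Matrix.mul_one, hU]
    rfl
  rw [h1]
  refine PosSemidef.mul_mul_conjTranspose_same ?_ U
  rw [Matrix.posSemidef_diagonal_iff]
  intro i
  split_ifs <;> simp

lemma trace_proj_mul (U : Matrix n (Fin N) ℂ) (t : ℕ) (X : Matrix n n ℂ) :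
    (proj U t * X).trace.re = ∑ j : Fin N, if (j : ℕ) < t then ((Uᴴ * X * U) j j).re else 0 := by
  have h1 : (proj U t * X).trace =
      ((Uᴴ * X * U) * diagonal (fun j : Fin N => if (j : ℕ) < t then (1 : ℂ) else 0)).trace := by
    unfold proj
    rw [Matrix.trace_mul_comm]
    calc (X * (U * diagonal (fun j : Fin N => if (j : ℕ) < t then (1 : ℂ) else 0) * Uᴴ)).trace
        = ((X * U * diagonal (fun j : Fin N => if (j : ℕ) < t then (1 : ℂ) else 0)) * Uᴴ).trace := by
          simp only [Matrix.mul_assoc]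
      _ = (Uᴴ * (X * U * diagonal (fun j : Fin N => if (j : ℕ) < t then (1 : ℂ) else 0))).trace :=
          Matrix.trace_mul_comm _ _
      _ = _ := by simp only [Matrix.mul_assoc]
  rw [h1]
  simp only [Matrix.trace, Matrix.diag, Matrix.mul_diagonal, Complex.re_sum]
  refine Finset.sum_congr rfl fun j _ => ?_
  split_ifs <;> simp

lemma trace_proj (hU : Uᴴ * U = 1) (t : ℕ) : (proj U t).trace.re ≤ t := by
  have h := trace_proj_mul U t (1 : Matrix n n ℂ)
  rw [Matrix.mul_one, Matrix.mul_one, hU] at h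
  rw [h]
  simp only [Matrix.one_apply_eq, Complex.one_re]
  rcases le_or_gt t N with hN | hN
  · exact le_of_eq (card_lt hN)
  · calc (∑ j : Fin N, if (j : ℕ) < t then (1 : ℝ) else 0) ≤ ∑ _j : Fin N, (1 : ℝ) :=
        Finset.sum_le_sum fun j _ => by split_ifs <;> norm_num
      _ = N := by simp
      _ ≤ t := by exact_mod_cast hN.le

/-- Sums of diagonal entries are dominated by the sums of the largest eigenvalues. -/
lemma diag_sum_le (h : Dec X x U) (hX : X.PosSemidef) (hV : Vᴴ * V = 1) (hV' : V * Vᴴ = 1)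
    (t : ℕ) :
    (∑ j : Fin N, if (j : ℕ) < t then ((Vᴴ * X * V) j j).re else 0) ≤
      ∑ j : Fin N, if (j : ℕ) < t then x j else 0 := by
  rw [← trace_proj_mul]
  exact h.kyFan hX (proj_psd V t) (one_sub_proj hV' t) t (trace_proj hV t)

lemma quad (h : Dec X x U) (v : n → ℂ) :
    (star v ⬝ᵥ (X *ᵥ v)).re = ∑ l, x l * Complex.normSq ((Uᴴ *ᵥ v) l) := by
  have h1 : star v ⬝ᵥ (X *ᵥ v) =
      star (Uᴴ *ᵥ v) ⬝ᵥ (diagonal (fun j => (x j : ℂ)) *ᵥ (Uᴴ *ᵥ v)) := by
    conv_lhs => rw [h.eq]
    rw [← Matrix.mulVec_mulVec, ← Matrix.mulVec_mulVec, Matrix.dotProduct_mulVec,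
      Matrix.star_mulVec, conjTranspose_conjTranspose]
  rw [h1]
  simp only [dotProduct, Pi.star_apply, Matrix.mulVec_diagonal, Complex.re_sum]
  refine Finset.sum_congr rfl fun l _ => ?_
  generalize (Uᴴ *ᵥ v) l = z
  simp only [RCLike.star_def, Complex.mul_re, Complex.conj_re, Complex.conj_im, Complex.ofReal_re,
    Complex.ofReal_im, Complex.mul_im, Complex.normSq_apply]
  ring

lemma const (c : ℝ) (hU : Uᴴ * U = 1) (hU' : U * Uᴴ = 1) :
    Dec ((c : ℂ) • (1 : Matrix n n ℂ)) (fun _ : Fin N => c) U := by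
  refine ⟨fun _ _ _ => le_rfl, hU, hU', ?_⟩
  have : (diagonal (fun _ : Fin N => (c : ℂ))) = (c : ℂ) • (1 : Matrix (Fin N) (Fin N) ℂ) := by
    rw [Matrix.smul_one_eq_diagonal]
  rw [this, Matrix.mul_smul, Matrix.smul_mul, Matrix.mul_one, hU']

/-- Monotonicity of eigenvalues. -/
lemma weyl (h : Dec X x U) (h' : Dec Y y V) (hXY : (Y - X).PosSemidef) (j : Fin N) :
    x j ≤ y j := by
  let G : Matrix (Fin N) (Fin N) ℂ := Vᴴ * U
  let K : Matrix (Fin N) (Fin N) ℂ := fun l a =>
    if l < j then G l a else if l = j then 0 else (if l = a then 1 else 0)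
  have hdet : K.det = 0 := by
    refine Matrix.det_eq_zero_of_row_eq_zero j fun a => ?_
    simp [K]
  obtain ⟨c, hc0, hc⟩ := Matrix.exists_mulVec_eq_zero_iff.mpr hdet
  have hlow : ∀ l, l < j → (G *ᵥ c) l = 0 := by
    intro l hl
    have := congrFun hc l
    simp only [Matrix.mulVec, dotProduct, K, if_pos hl] at this
    exact this
  have hhigh : ∀ l, j < l → c l = 0 := by
    intro l hl
    have := congrFun hc l
    simp only [Matrix.mulVec, dotProduct, K, if_neg (not_lt.2 hl.le), if_neg hl.ne', ite_mul,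
      one_mul, zero_mul, Finset.sum_ite_eq, Finset.mem_univ, if_true, Pi.zero_apply] at this
    exact this
  set v : n → ℂ := U *ᵥ c with hv
  have hUv : Uᴴ *ᵥ v = c := by rw [hv, Matrix.mulVec_mulVec, h.left, Matrix.one_mulVec]
  have hVv : Vᴴ *ᵥ v = G *ᵥ c := by rw [hv, Matrix.mulVec_mulVec]
  have hone : ∑ l, Complex.normSq (c l) = ∑ l, Complex.normSq ((G *ᵥ c) l) := by
    have h1 := (const (N := N) 1 h.left h.right).quad v
    have h2 := (const (N := N) 1 h'.left h'.right).quad v
    rw [hUv] at h1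
    rw [hVv] at h2
    simp only [one_mul] at h1 h2
    rw [← h1, ← h2]
  have hq : (star v ⬝ᵥ (X *ᵥ v)).re ≤ (star v ⬝ᵥ (Y *ᵥ v)).re := by
    have h1 := (Complex.le_def.1 (hXY.dotProduct_mulVec_nonneg v)).1
    rw [Matrix.sub_mulVec, dotProduct_sub, Complex.sub_re, Complex.zero_re] at h1
    linarith
  rw [h.quad, h'.quad, hUv, hVv] at hq
  have hl : x j * ∑ l, Complex.normSq (c l) ≤ ∑ l, x l * Complex.normSq (c l) := by
    rw [Finset.mul_sum]
    refine Finset.sum_le_sum fun l _ => ?_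
    rcases le_or_gt l j with hlj | hlj
    · exact mul_le_mul_of_nonneg_right (h.anti hlj) (Complex.normSq_nonneg _)
    · rw [hhigh l hlj]; simp
  have hr : ∑ l, y l * Complex.normSq ((G *ᵥ c) l) ≤
      y j * ∑ l, Complex.normSq ((G *ᵥ c) l) := by
    rw [Finset.mul_sum]
    refine Finset.sum_le_sum fun l _ => ?_
    rcases lt_or_ge l j with hlj | hlj
    · rw [hlow l hlj]; simp
    · exact mul_le_mul_of_nonneg_right (h'.anti hlj) (Complex.normSq_nonneg _)
  have hpos : 0 < ∑ l, Complex.normSq (c l) := by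
    obtain ⟨a, ha⟩ := Function.ne_iff.1 hc0
    refine Finset.sum_pos' (fun l _ => Complex.normSq_nonneg _) ⟨a, Finset.mem_univ _, ?_⟩
    exact Complex.normSq_pos.2 ha
  rw [← hone] at hr
  exact le_of_mul_le_mul_right (hl.trans (hq.trans hr)) hpos

end Dec

end Pool.Agent.R299.Maj
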