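import Pool.Agent.R299.Maj.Basic

open Matrix Finset
open scoped Kronecker ComplexOrder

namespace Pool.Agent.R299.Maj

variable {m n : ℕ}

/-- The k-th diagonal block (in the second tensor factor). -/
def block (Q : Matrix (Fin m × Fin n) (Fin m × Fin n) ℂ) (k : Fin n) :
    Matrix (Fin m) (Fin m) ℂ :=
  Q.submatrix (fun i => (i, k)) (fun i => (i, k))

lemma block_psd {Q : Matrix (Fin m × Fin n) (Fin m × Fin n) ℂ} (hQ : Q.PosSemidef) (k : Fin n) :
    (block Q k).PosSemidef :=
  hQ.submatrix _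

lemma one_sub_block_psd {Q : Matrix (Fin m × Fin n) (Fin m × Fin n) ℂ}
    (hQ : (1 - Q).PosSemidef) (k : Fin n) : (1 - block Q k).PosSemidef := by
  have h := block_psd hQ k
  have h2 : block (1 - Q) k = 1 - block Q k := by
    ext i j
    simp only [block, Matrix.submatrix_apply, Matrix.sub_apply, Matrix.one_apply, Prod.mk.injEq,
      and_true]
  rwa [h2] at h

/-- The partial trace over the second factor. -/
noncomputable def ptr (Q : Matrix (Fin m × Fin n) (Fin m × Fin n) ℂ) :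
    Matrix (Fin m) (Fin m) ℂ := ∑ k, block Q k

lemma ptr_trace (Q : Matrix (Fin m × Fin n) (Fin m × Fin n) ℂ) : (ptr Q).trace = Q.trace := by
  unfold ptr
  rw [Matrix.trace_sum]
  simp only [Matrix.trace, Matrix.diag, block, Matrix.submatrix_apply]
  rw [Fintype.sum_prod_type_right]

/-- conjugation by 1 ⊗ V -/
noncomputable def conjR (V : Matrix (Fin n) (Fin n) ℂ)
    (P : Matrix (Fin m × Fin n) (Fin m × Fin n) ℂ) :
    Matrix (Fin m × Fin n) (Fin m × Fin n) ℂ :=
  ((1 : Matrix (Fin m) (Fin m) ℂ) ⊗ₖ V)ᴴ * P * ((1 : Matrix (Fin m) (Fin m) ℂ) ⊗ₖ V)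

lemma block_conjR_apply (V : Matrix (Fin n) (Fin n) ℂ)
    (P : Matrix (Fin m × Fin n) (Fin m × Fin n) ℂ) (k : Fin n) (i i' : Fin m) :
    block (conjR V P) k i i' = ∑ l, ∑ l', star (V l k) * P (i, l) (i', l') * V l' k := by
  simp only [block, conjR, Matrix.submatrix_apply, Matrix.mul_apply, Matrix.conjTranspose_apply,
    Matrix.kroneckerMap_apply, Fintype.sum_prod_type_right, Matrix.one_apply,
    apply_ite (star : ℂ → ℂ), star_zero, ite_mul, one_mul, zero_mul, mul_ite, mul_zero,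
    Finset.sum_ite_eq', Finset.mem_univ, if_true, Finset.sum_mul]
  exact Finset.sum_comm

lemma ptr_conjR (V : Matrix (Fin n) (Fin n) ℂ) (hV : V * Vᴴ = 1)
    (P : Matrix (Fin m × Fin n) (Fin m × Fin n) ℂ) : ptr (conjR V P) = ptr P := by
  ext i i'
  simp only [ptr, Matrix.sum_apply, block_conjR_apply]
  rw [Finset.sum_comm]
  have h1 : ∀ l : Fin n, ∑ k, ∑ l', star (V l k) * P (i, l) (i', l') * V l' k = P (i, l) (i', l) := by
    intro l
    rw [Finset.sum_comm]
    have h2 : ∀ l', ∑ k, star (V l k) * P (i, l) (i', l') * V l' k =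
        P (i, l) (i', l') * (V * Vᴴ) l' l := by
      intro l'
      simp only [Matrix.mul_apply, Matrix.conjTranspose_apply, Finset.mul_sum]
      exact Finset.sum_congr rfl fun k _ => by ring
    simp only [h2, hV, Matrix.one_apply, mul_ite, mul_one, mul_zero, Finset.sum_ite_eq',
      Finset.mem_univ, if_true]
  simp only [h1, block, Matrix.submatrix_apply]

lemma conjR_psd (V : Matrix (Fin n) (Fin n) ℂ)
    {P : Matrix (Fin m × Fin n) (Fin m × Fin n) ℂ} (hP : P.PosSemidef) :
    (conjR V P).PosSemidef := hP.conjTranspose_mul_mul_same _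

lemma one_sub_conjR_psd (V : Matrix (Fin n) (Fin n) ℂ) (hV : Vᴴ * V = 1)
    {P : Matrix (Fin m × Fin n) (Fin m × Fin n) ℂ} (hP : (1 - P).PosSemidef) :
    (1 - conjR V P).PosSemidef := by
  have h : conjR V (1 - P) = 1 - conjR V P := by
    unfold conjR
    rw [Matrix.mul_sub, Matrix.sub_mul, Matrix.mul_one, Matrix.conjTranspose_kronecker,
      ← Matrix.mul_kronecker_mul, hV]
    simp
  rw [← h]
  exact conjR_psd V hP

/-- The weights. -/
noncomputable def wt (U : Matrix (Fin m) (Fin m) ℂ) (V : Matrix (Fin n) (Fin n) ℂ)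
    (P : Matrix (Fin m × Fin n) (Fin m × Fin n) ℂ) (j : Fin m) (k : Fin n) : ℝ :=
  ((Uᴴ * block (conjR V P) k * U) j j).re

lemma kron_diag (U : Matrix (Fin m) (Fin m) ℂ) (V : Matrix (Fin n) (Fin n) ℂ)
    (P : Matrix (Fin m × Fin n) (Fin m × Fin n) ℂ) (j : Fin m) (k : Fin n) :
    ((U ⊗ₖ V)ᴴ * P * (U ⊗ₖ V)) (j, k) (j, k) = (Uᴴ * block (conjR V P) k * U) j j := by
  have h1 : (U ⊗ₖ V)ᴴ * P * (U ⊗ₖ V) =
      (Uᴴ ⊗ₖ (1 : Matrix (Fin n) (Fin n) ℂ)) * conjR V P *
        (U ⊗ₖ (1 : Matrix (Fin n) (Fin n) ℂ)) := by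
    have h2 : U ⊗ₖ V = ((1 : Matrix (Fin m) (Fin m) ℂ) ⊗ₖ V) *
        (U ⊗ₖ (1 : Matrix (Fin n) (Fin n) ℂ)) := by
      rw [← Matrix.mul_kronecker_mul, Matrix.one_mul, Matrix.mul_one]
    rw [h2, conjR, Matrix.conjTranspose_mul, Matrix.conjTranspose_kronecker U,
      Matrix.conjTranspose_one]
    simp only [Matrix.mul_assoc]
  rw [h1]
  simp only [Matrix.mul_apply (M := Uᴴ ⊗ₖ (1 : Matrix (Fin n) (Fin n) ℂ)),
    Matrix.mul_apply (N := U ⊗ₖ (1 : Matrix (Fin n) (Fin n) ℂ)), Matrix.mul_apply (M := Uᴴ),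
    Matrix.mul_apply (N := U), Matrix.kroneckerMap_apply, Fintype.sum_prod_type,
    Matrix.one_apply, mul_ite, ite_mul, mul_one, mul_zero, zero_mul, Finset.sum_ite_eq,
    Finset.sum_ite_eq', Finset.mem_univ, if_true, block, Matrix.submatrix_apply]

lemma trace_kron {A : Matrix (Fin m) (Fin m) ℂ} {B : Matrix (Fin n) (Fin n) ℂ}
    {a : Fin m → ℝ} {b : Fin n → ℝ} {U : Matrix (Fin m) (Fin m) ℂ} {V : Matrix (Fin n) (Fin n) ℂ}
    (hA : Dec A a U) (hB : Dec B b V) (P : Matrix (Fin m × Fin n) (Fin m × Fin n) ℂ) :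
    (P * (A ⊗ₖ B)).trace.re = ∑ j, a j * ∑ k, b k * wt U V P j k := by
  have h1 : A ⊗ₖ B = (U ⊗ₖ V) * diagonal (fun q : Fin m × Fin n => ((a q.1 * b q.2 : ℝ) : ℂ)) *
      (U ⊗ₖ V)ᴴ := by
    conv_lhs => rw [hA.eq, hB.eq]
    rw [Matrix.mul_kronecker_mul, Matrix.mul_kronecker_mul, Matrix.conjTranspose_kronecker,
      Matrix.diagonal_kronecker_diagonal]
    simp
  have h2 : (P * (A ⊗ₖ B)).trace = (((U ⊗ₖ V)ᴴ * P * (U ⊗ₖ V)) *
      diagonal (fun q : Fin m × Fin n => ((a q.1 * b q.2 : ℝ) : ℂ))).trace := by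
    rw [h1]
    calc (P * ((U ⊗ₖ V) * diagonal (fun q : Fin m × Fin n => ((a q.1 * b q.2 : ℝ) : ℂ)) *
          (U ⊗ₖ V)ᴴ)).trace
        = ((P * (U ⊗ₖ V) * diagonal (fun q : Fin m × Fin n => ((a q.1 * b q.2 : ℝ) : ℂ))) *
          (U ⊗ₖ V)ᴴ).trace := by simp only [Matrix.mul_assoc]
      _ = ((U ⊗ₖ V)ᴴ * (P * (U ⊗ₖ V) *
          diagonal (fun q : Fin m × Fin n => ((a q.1 * b q.2 : ℝ) : ℂ)))).trace :=
          Matrix.trace_mul_comm _ _
      _ = _ := by simp only [Matrix.mul_assoc]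
  rw [h2]
  simp only [Matrix.trace, Matrix.diag, Matrix.mul_diagonal, Complex.re_sum,
    Fintype.sum_prod_type, Finset.mul_sum]
  refine Finset.sum_congr rfl fun j _ => Finset.sum_congr rfl fun k _ => ?_
  rw [kron_diag, Complex.mul_re, Complex.ofReal_re, Complex.ofReal_im, wt]
  ring

/-- The universal weights attached to the eigenvalues of the partial trace. -/
noncomputable def sw (r : Fin m → ℝ) (j : Fin m) (k : Fin n) : ℝ :=
  min 1 (max 0 (r j - k))

lemma sw_nonneg (r : Fin m → ℝ) (j : Fin m) (k : Fin n) : 0 ≤ sw r j k :=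
  le_min zero_le_one (le_max_left _ _)

lemma sw_le_one (r : Fin m → ℝ) (j : Fin m) (k : Fin n) : sw r j k ≤ 1 := min_le_left _ _

lemma sum_sw_nat {ρ : ℝ} (hρ : 0 ≤ ρ) : ∀ K : ℕ,
    ∑ k ∈ Finset.range K, min 1 (max 0 (ρ - (k : ℝ))) = min ρ K
  | 0 => by simp [hρ]
  | K + 1 => by
      rw [Finset.sum_range_succ, sum_sw_nat hρ K]
      push_cast
      rcases le_total ρ K with h | h
      · rw [min_eq_left h, max_eq_left (by linarith), min_eq_right zero_le_one, add_zero,
          min_eq_left (by linarith)]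
      · rw [min_eq_right h, max_eq_right (by linarith)]
        rcases le_total ρ (K + 1) with h' | h'
        · rw [min_eq_right (by linarith), min_eq_left h']; ring
        · rw [min_eq_left (by linarith), min_eq_right h']

lemma sum_sw (r : Fin m → ℝ) (j : Fin m) (hr : 0 ≤ r j) (K : ℕ) (hK : K ≤ n) :
    (∑ k : Fin n, if (k : ℕ) < K then sw r j k else 0) = min (r j) K := by
  rw [← sum_sw_nat hr K]
  have h1 := Fin.sum_univ_eq_sum_range
    (fun k : ℕ => if k < K then min 1 (max 0 (r j - (k : ℝ))) else 0) n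
  unfold sw
  rw [h1, ← Finset.sum_filter]
  congr 1
  ext k
  simp only [Finset.mem_filter, Finset.mem_range]
  omega

/-- The key inequality. -/
lemma key {P : Matrix (Fin m × Fin n) (Fin m × Fin n) ℂ} (hP : P.PosSemidef)
    (hP1 : (1 - P).PosSemidef) {r : Fin m → ℝ} {W : Matrix (Fin m) (Fin m) ℂ}
    (hr : Dec (ptr P) r W) {U : Matrix (Fin m) (Fin m) ℂ} {V : Matrix (Fin n) (Fin n) ℂ}
    (hU : Uᴴ * U = 1) (hU' : U * Uᴴ = 1) (hV : Vᴴ * V = 1) (hV' : V * Vᴴ = 1) (I K : ℕ) :
    (∑ j : Fin m, if (j : ℕ) < I then (∑ k : Fin n, if (k : ℕ) < K then wt U V P j k else 0)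
      else 0) ≤
    ∑ j : Fin m, if (j : ℕ) < I then (∑ k : Fin n, if (k : ℕ) < K then sw r j k else 0)
      else 0 := by
  classical
  -- the restricted partial trace
  let T : Finset (Fin n) := Finset.univ.filter (fun k => (k : ℕ) < K)
  let X : Matrix (Fin m) (Fin m) ℂ := ∑ k ∈ T, block (conjR V P) k
  have hb : ∀ k, (block (conjR V P) k).PosSemidef := fun k => block_psd (conjR_psd V hP) k
  have hb1 : ∀ k, (1 - block (conjR V P) k).PosSemidef := fun k =>
    one_sub_block_psd (one_sub_conjR_psd V hV hP1) k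
  have hX : X.PosSemidef := Matrix.posSemidef_sum _ fun k _ => hb k
  obtain ⟨Z, hZ⟩ := exists_dec hX.1 (Fintype.card_fin m)
  set x : Fin m → ℝ := fun j => hX.1.eigenvalues₀ (Fin.cast (Fintype.card_fin m).symm j) with hx
  have hcR : ((T.card : ℂ) • (1 : Matrix (Fin m) (Fin m) ℂ) - X).PosSemidef := by
    have : (T.card : ℂ) • (1 : Matrix (Fin m) (Fin m) ℂ) - X =
        ∑ k ∈ T, (1 - block (conjR V P) k) := by
      rw [Finset.sum_sub_distrib, Finset.sum_const, ← Nat.cast_smul_eq_nsmul ℂ]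
    rw [this]
    exact Matrix.posSemidef_sum _ fun k _ => hb1 k
  have hRX : (ptr P - X).PosSemidef := by
    have : ptr P - X = ∑ k ∈ Tᶜ, block (conjR V P) k := by
      rw [← ptr_conjR V hV' P, ptr, ← Finset.sum_add_sum_compl T]
      simp [X]
    rw [this]
    exact Matrix.posSemidef_sum _ fun k _ => hb k
  have hxr : ∀ j, x j ≤ r j := fun j => hZ.weyl hr hRX j
  have hKn : ∀ k : Fin n, ((k : ℕ) < K ↔ (k : ℕ) < min K n) := fun k => by
    have := k.2
    omega
  have hxK : ∀ j, x j ≤ (min K n : ℕ) := by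
    intro j
    have h1 := hZ.weyl (Dec.const (n := Fin m) (N := m) (T.card : ℝ) hU hU')
      (by simpa using hcR) j
    refine h1.trans ?_
    have : T.card ≤ min K n := by
      have h2 : T.card = (T.image (fun k : Fin n => (k : ℕ))).card := by
        rw [Finset.card_image_of_injective _ Fin.val_injective]
      rw [h2]
      calc _ ≤ (Finset.range (min K n)).card := Finset.card_le_card (by
            intro k hk
            simp only [T, Finset.mem_image, Finset.mem_filter, Finset.mem_univ, true_and] at hk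
            obtain ⟨a, ha, rfl⟩ := hk
            exact Finset.mem_range.2 ((hKn a).1 ha))
        _ = min K n := Finset.card_range _
    exact_mod_cast this
  have hr0 : ∀ j, 0 ≤ r j := by
    refine hr.nonneg ?_
    rw [← ptr_conjR V hV' P]
    exact Matrix.posSemidef_sum _ fun k _ => hb k
  have hsw : ∀ j, (∑ k : Fin n, if (k : ℕ) < K then sw r j k else 0) =
      min (r j) ((min K n : ℕ) : ℝ) := by
    intro j
    rw [← sum_sw r j (hr0 j) (min K n) (min_le_right _ _)]
    exact Finset.sum_congr rfl fun k _ => by simp only [hKn k]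
  have hwt : ∀ j, (∑ k : Fin n, if (k : ℕ) < K then wt U V P j k else 0) =
      ((Uᴴ * X * U) j j).re := by
    intro j
    rw [Matrix.mul_sum, Matrix.sum_mul, Matrix.sum_apply, Complex.re_sum, ← Finset.sum_filter]
    rfl
  simp only [hsw, hwt]
  refine (hZ.diag_sum_le hX hU hU' I).trans (Finset.sum_le_sum fun j _ => ?_)
  split_ifs
  · exact le_min (hxr j) (hxK j)
  · exact le_rfl

/-- For each positive semidefinite pair, the trace against P is dominated by the sum with
universal weights. -/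
lemma trace_kron_le {P : Matrix (Fin m × Fin n) (Fin m × Fin n) ℂ} (hP : P.PosSemidef)
    (hP1 : (1 - P).PosSemidef) {r : Fin m → ℝ} {W : Matrix (Fin m) (Fin m) ℂ}
    (hr : Dec (ptr P) r W) {A : Matrix (Fin m) (Fin m) ℂ} {B : Matrix (Fin n) (Fin n) ℂ}
    (hA : A.PosSemidef) (hB : B.PosSemidef)
    {a : Fin m → ℝ} {b : Fin n → ℝ} {U : Matrix (Fin m) (Fin m) ℂ} {V : Matrix (Fin n) (Fin n) ℂ}
    (hAU : Dec A a U) (hBV : Dec B b V) :
    (P * (A ⊗ₖ B)).trace.re ≤ ∑ j, ∑ k, sw r j k * (a j * b k) := by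
  rw [trace_kron hAU hBV P]
  have h := abel a (fun j => ∑ k, b k * wt U V P j k) (fun j => ∑ k, b k * sw r j k) hAU.anti
    (hAU.nonneg hA) (fun I => by
      have h1 : ∀ f : Fin m → Fin n → ℝ,
          (∑ j : Fin m, if (j : ℕ) < I then ∑ k, b k * f j k else 0) =
            ∑ k, b k * ∑ j : Fin m, if (j : ℕ) < I then f j k else 0 := by
        intro f
        simp only [Finset.mul_sum]
        rw [Finset.sum_comm]
        refine Finset.sum_congr rfl fun j _ => ?_
        split_ifs <;> simp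
      rw [h1, h1]
      refine abel b _ _ hBV.anti (hBV.nonneg hB) fun K => ?_
      have h2 : ∀ f : Fin m → Fin n → ℝ,
          (∑ k : Fin n, if (k : ℕ) < K then (∑ j : Fin m, if (j : ℕ) < I then f j k else 0)
            else 0) =
          ∑ j : Fin m, if (j : ℕ) < I then (∑ k : Fin n, if (k : ℕ) < K then f j k else 0)
            else 0 := by
        intro f
        have h3 : ∀ j : Fin m, (if (j : ℕ) < I then
            (∑ k : Fin n, if (k : ℕ) < K then f j k else 0) else 0) =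
            ∑ k : Fin n, if (j : ℕ) < I then (if (k : ℕ) < K then f j k else 0) else 0 := by
          intro j
          split_ifs <;> simp
        have h4 : ∀ k : Fin n, (if (k : ℕ) < K then
            (∑ j : Fin m, if (j : ℕ) < I then f j k else 0) else 0) =
            ∑ j : Fin m, if (j : ℕ) < I then (if (k : ℕ) < K then f j k else 0) else 0 := by
          intro k
          split_ifs <;> simp
        simp only [h3, h4]
        exact Finset.sum_comm
      rw [h2, h2]
      exact key hP hP1 hr hAU.left hAU.right hBV.left hBV.right I K)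
  refine h.trans (le_of_eq ?_)
  refine Finset.sum_congr rfl fun j _ => ?_
  rw [Finset.mul_sum]
  exact Finset.sum_congr rfl fun k _ => by ring

end Pool.Agent.R299.Maj
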